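import Pool.Agent.Q212.RF.Final

/-!
# ℝ-factorizable groups: locally finite families of open sets, and products with a discrete factor

For an ℝ-factorizable group every locally finite family of `κ` nonempty open sets satisfies
`2 ^ κ ≤ 2 ^ ℵ₀`.  If `2 ^ ℵ₀ < 2 ^ ℵ₁` then every ℝ-factorizable group is pseudo-`ℵ₁`-compact
and no ℝ-factorizable group is homeomorphic to the product of a topological group and an
uncountable discrete space.  In ZFC the latter is shown for discrete spaces `D` with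
`2 ^ ℵ₀ < 2 ^ |D|`, in particular for `|D| ≥ 2 ^ ℵ₀`.
-/

set_option autoImplicit false

namespace Pool.Agent.Results.MP_8a5e40_gt.SmallFamilies

open Cardinal Topology Set Pool.Agent.Q212.RF

universe u

/-- pseudo-`ℵ₁`-compactness: every locally finite family of nonempty open sets is countable -/
def PseudoAlephOneCompact (X : Type u) [TopologicalSpace X] : Prop :=
  ∀ (ι : Type u) (O : ι → Set X), (∀ i, IsOpen (O i)) → (∀ i, (O i).Nonempty) →
    LocallyFinite O → Countable ι

/-- No ℝ-factorizable group has its space homeomorphic to `H × D` for a topological group `H`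
and a discrete space `D` whose cardinality satisfies `p`. -/
def NoProduct (p : Cardinal.{u} → Prop) : Prop :=
  ∀ (G : Type u) [Group G] [TopologicalSpace G] [IsTopologicalGroup G], RFactorizable G →
    ∀ (H : Type u) [Group H] [TopologicalSpace H] [IsTopologicalGroup H]
      (D : Type u) [TopologicalSpace D] [DiscreteTopology D], p #D → IsEmpty (G ≃ₜ H × D)

theorem result :
    (∀ (G : Type u) [Group G] [TopologicalSpace G] [IsTopologicalGroup G], RFactorizable G →
      ∀ (ι : Type u) (O : ι → Set G), (∀ i, IsOpen (O i)) → (∀ i, (O i).Nonempty) →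
        LocallyFinite O → (2 : Cardinal.{u}) ^ #ι ≤ 2 ^ ℵ₀) ∧
    ((2 : Cardinal.{0}) ^ ℵ₀ < 2 ^ ℵ₁ →
      (∀ (G : Type u) [Group G] [TopologicalSpace G] [IsTopologicalGroup G],
        RFactorizable G → PseudoAlephOneCompact G) ∧
      NoProduct.{u} (fun κ => ℵ₀ < κ)) ∧
    NoProduct.{u} (fun κ => 2 ^ ℵ₀ < (2 : Cardinal.{u}) ^ κ) ∧
    NoProduct.{u} (fun κ => 2 ^ ℵ₀ ≤ κ) := by
  have main : NoProduct.{u} (fun κ => 2 ^ ℵ₀ < (2 : Cardinal.{u}) ^ κ) := by
    intro G _ _ _ hG H _ _ _ D _ _ hD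
    refine ⟨fun e => ?_⟩
    have : Nonempty H := ⟨1⟩
    obtain ⟨O, hOo, hOn, hd⟩ := slices e
    exact absurd (two_pow_le hG hOo hOn hd) (not_le.2 hD)
  have lift : (2 : Cardinal.{0}) ^ ℵ₀ < 2 ^ ℵ₁ → ∀ κ : Cardinal.{u}, ℵ₀ < κ →
      (2 : Cardinal.{u}) ^ ℵ₀ < 2 ^ κ := by
    intro h κ hκ
    have h1 : (2 : Cardinal.{u}) ^ (ℵ₀ : Cardinal.{u}) < 2 ^ (ℵ₁ : Cardinal.{u}) := by
      have h2 := Cardinal.lift_lt.{0, u}.2 h
      simpa using h2
    refine lt_of_lt_of_le h1 (Cardinal.power_le_power_left two_ne_zero ?_)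
    rw [← Cardinal.succ_aleph0]
    exact Order.succ_le_of_lt hκ
  refine ⟨?_, ?_, main, ?_⟩
  · intro G _ _ _ hG ι O hOo hOn hl
    exact two_pow_le_of_locallyFinite hG hOo hOn hl
  · intro h
    refine ⟨?_, ?_⟩
    · intro G _ _ _ hG ι O hOo hOn hl
      by_contra hcon
      rw [not_countable_iff] at hcon
      exact absurd (two_pow_le_of_locallyFinite hG hOo hOn hl)
        (not_le.2 (lift h _ (Cardinal.aleph0_lt_mk_iff.2 hcon)))
    · intro G _ _ _ hG H _ _ _ D _ _ hD
      exact main G hG H D (lift h _ hD)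
  · intro G _ _ _ hG H _ _ _ D _ _ hD
    exact main G hG H D (lt_of_lt_of_le (Cardinal.cantor _)
      (Cardinal.power_le_power_left two_ne_zero hD))

end Pool.Agent.Results.MP_8a5e40_gt.SmallFamilies
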